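import Pool.Agent.Helper70.MM.Goals4

/-!
Packet MM-CFORM: the energy of the uniform measure on the circle.
-/

open MeasureTheory Set Metric
open scoped ENNReal RealInnerProductSpace Topology
open Pool.Agent.Results.MP_91ee6f_gt

namespace Pool.Agent.Helper94.MM

open Pool.Agent.Helper70.MM

/-- the parametrisation of the circle -/
noncomputable def cir (R θ : ℝ) : En 2 := WithLp.toLp 2 ![R * Real.cos θ, R * Real.sin θ]

theorem cir_cont (R : ℝ) : Continuous (cir R) := by
  unfold cir
  apply (PiLp.continuous_toLp 2 _).comp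
  apply continuous_pi
  intro i
  fin_cases i
  · exact continuous_const.mul Real.continuous_cos
  · exact continuous_const.mul Real.continuous_sin

theorem cir_norm {R : ℝ} (hR : 0 < R) (θ : ℝ) : ‖cir R θ‖ = R := by
  rw [EuclideanSpace.norm_eq, Fin.sum_univ_two]
  have e : ‖cir R θ 0‖ ^ 2 + ‖cir R θ 1‖ ^ 2 = R ^ 2 := by
    show ‖R * Real.cos θ‖ ^ 2 + ‖R * Real.sin θ‖ ^ 2 = R ^ 2
    rw [Real.norm_eq_abs, Real.norm_eq_abs, sq_abs, sq_abs]
    have := Real.sin_sq_add_cos_sq θ
    nlinarith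
  rw [e, Real.sqrt_sq hR.le]

theorem cir_dist {R : ℝ} (hR : 0 < R) (φ θ : ℝ) :
    dist (cir R φ) (cir R θ) = 2 * R * |Real.sin ((θ - φ) / 2)| := by
  rw [EuclideanSpace.dist_eq, Fin.sum_univ_two]
  have e : dist (cir R φ 0) (cir R θ 0) ^ 2 + dist (cir R φ 1) (cir R θ 1) ^ 2 =
      (2 * R * |Real.sin ((θ - φ) / 2)|) ^ 2 := by
    show dist (R * Real.cos φ) (R * Real.cos θ) ^ 2 + dist (R * Real.sin φ) (R * Real.sin θ) ^ 2 = _
    rw [Real.dist_eq, Real.dist_eq, sq_abs, sq_abs, mul_pow, sq_abs]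
    have h1 : Real.cos (θ - φ) = 1 - 2 * Real.sin ((θ - φ) / 2) ^ 2 := by
      have h2 := Real.cos_two_mul ((θ - φ) / 2)
      have h3 := Real.sin_sq_add_cos_sq ((θ - φ) / 2)
      rw [show 2 * ((θ - φ) / 2) = θ - φ by ring] at h2
      rw [h2]
      linarith
    rw [Real.cos_sub] at h1
    have h4 := Real.sin_sq_add_cos_sq θ
    have h5 := Real.sin_sq_add_cos_sq φ
    have h6 : (R * Real.cos φ - R * Real.cos θ) ^ 2 + (R * Real.sin φ - R * Real.sin θ) ^ 2 =
        R ^ 2 * ((Real.sin φ ^ 2 + Real.cos φ ^ 2) + (Real.sin θ ^ 2 + Real.cos θ ^ 2) -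
          2 * (Real.cos θ * Real.cos φ + Real.sin θ * Real.sin φ)) := by ring
    rw [h6, h4, h5, h1]
    ring
  rw [e, Real.sqrt_sq (by positivity)]

theorem cir_surj {R : ℝ} (x : En 2) (hx : ‖x‖ = R) : ∃ φ, x = cir R φ := by
  set z : ℂ := ⟨x 0, x 1⟩ with hz
  have hn : ‖z‖ = R := by
    rw [← hx, EuclideanSpace.norm_eq, Fin.sum_univ_two, Complex.norm_def, Complex.normSq_apply,
      Real.norm_eq_abs, Real.norm_eq_abs, sq_abs, sq_abs]
    congr 1
    rw [hz]
    ring
  refine ⟨Complex.arg z, ?_⟩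
  have h1 := Complex.norm_mul_cos_arg z
  have h2 := Complex.norm_mul_sin_arg z
  rw [hn] at h1 h2
  ext i
  fin_cases i
  · show x 0 = R * Real.cos (Complex.arg z)
    rw [h1]
  · show x 1 = R * Real.sin (Complex.arg z)
    rw [h2]

/-- the integral over the circle of the kernel -/
theorem kernel_int {R : ℝ} (hR : 0 < R) (x : En 2) (hx : ‖x‖ = R) :
    ∫ θ in (0 : ℝ)..(2 * Real.pi), Real.exp (-dist (cir R θ) x) =
      4 * ∫ t in (0 : ℝ)..(Real.pi / 2), Real.exp (-(2 * R * Real.sin t)) := by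
  obtain ⟨φ, rfl⟩ := cir_surj x hx
  set g : ℝ → ℝ := fun θ => Real.exp (-(2 * R * |Real.sin (θ / 2)|)) with hg
  have hgc : Continuous g := by rw [hg]; fun_prop
  have hper : Function.Periodic g (2 * Real.pi) := by
    intro θ
    rw [hg]
    simp only
    rw [show (θ + 2 * Real.pi) / 2 = θ / 2 + Real.pi by ring, Real.sin_add_pi, abs_neg]
  have h1 : ∫ θ in (0 : ℝ)..(2 * Real.pi), Real.exp (-dist (cir R θ) (cir R φ)) =
      ∫ θ in (0 : ℝ)..(2 * Real.pi), g (θ - φ) := by
    apply intervalIntegral.integral_congr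
    intro θ _
    simp only
    rw [dist_comm, cir_dist hR]
  have h2 : ∫ θ in (0 : ℝ)..(2 * Real.pi), g (θ - φ) = ∫ θ in (0 : ℝ)..(2 * Real.pi), g θ := by
    rw [intervalIntegral.integral_comp_sub_right (fun x => g x) φ]
    have h3 := hper.intervalIntegral_add_eq (0 - φ) 0
    rw [zero_add] at h3
    rw [show 2 * Real.pi - φ = 0 - φ + 2 * Real.pi by ring]
    exact h3
  have h3 : ∫ θ in (0 : ℝ)..(2 * Real.pi), g θ =
      ∫ θ in (0 : ℝ)..(2 * Real.pi), Real.exp (-(2 * R * Real.sin (θ / 2))) := by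
    apply intervalIntegral.integral_congr
    intro θ hθ
    rw [uIcc_of_le (by positivity)] at hθ
    rw [hg]
    simp only
    rw [abs_of_nonneg]
    apply Real.sin_nonneg_of_nonneg_of_le_pi
    · linarith [hθ.1]
    · linarith [hθ.2]
  have h4 : ∫ θ in (0 : ℝ)..(2 * Real.pi), Real.exp (-(2 * R * Real.sin (θ / 2))) =
      2 * ∫ t in (0 : ℝ)..Real.pi, Real.exp (-(2 * R * Real.sin t)) := by
    rw [intervalIntegral.integral_comp_div (fun x => Real.exp (-(2 * R * Real.sin x)))
      (two_ne_zero), smul_eq_mul, zero_div, mul_div_cancel_left₀ _ (two_ne_zero)]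
  have hc : Continuous fun t : ℝ => Real.exp (-(2 * R * Real.sin t)) := by fun_prop
  have h5 : ∫ t in (0 : ℝ)..Real.pi, Real.exp (-(2 * R * Real.sin t)) =
      2 * ∫ t in (0 : ℝ)..(Real.pi / 2), Real.exp (-(2 * R * Real.sin t)) := by
    rw [← intervalIntegral.integral_add_adjacent_intervals (b := Real.pi / 2)
      (hc.intervalIntegrable _ _) (hc.intervalIntegrable _ _)]
    have h6 : ∫ t in (Real.pi / 2)..Real.pi, Real.exp (-(2 * R * Real.sin t)) =
        ∫ t in (0 : ℝ)..(Real.pi / 2), Real.exp (-(2 * R * Real.sin t)) := by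
      have h7 := intervalIntegral.integral_comp_sub_left
        (a := 0) (b := Real.pi / 2) (fun x => Real.exp (-(2 * R * Real.sin x))) Real.pi
      rw [show Real.pi - Real.pi / 2 = Real.pi / 2 by ring, sub_zero] at h7
      rw [← h7]
      apply intervalIntegral.integral_congr
      intro t _
      simp only
      rw [Real.sin_pi_sub]
    rw [h6]
    ring
  rw [h1, h2, h3, h4, h5]
  ring

theorem cform (hS : SPH1) (hM : MINP) : CFORM := by
  intro R hR
  obtain ⟨hP, hn, _⟩ := hS 2 (by norm_num) R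
  have hn := hn hR.le
  obtain ⟨_, hpot, _⟩ := hM 2 (by norm_num) R hR
  set σ := sphUnif 2 R with hσ
  haveI : IsProbabilityMeasure σ := hP
  set J : ℝ := ∫ t in (0 : ℝ)..(Real.pi / 2), Real.exp (-(2 * R * Real.sin t)) with hJ
  have hpi := Real.pi_pos
  have hint : Integrable (Function.uncurry fun (θ : ℝ) (y : En 2) => Real.exp (-dist (cir R θ) y))
      ((volume.restrict (Ioc 0 (2 * Real.pi))).prod σ) := by
    apply Integrable.mono' (integrable_const (1 : ℝ))
    · apply Continuous.aestronglyMeasurable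
      apply Real.continuous_exp.comp
      apply Continuous.neg
      exact ((cir_cont R).comp continuous_fst).dist continuous_snd
    · filter_upwards with p
      show ‖Real.exp (-dist (cir R p.1) p.2)‖ ≤ 1
      rw [Real.norm_of_nonneg (Real.exp_pos _).le]
      exact Real.exp_le_one_iff.mpr (neg_nonpos.mpr dist_nonneg)
  have h1 : ∫ θ in (0 : ℝ)..(2 * Real.pi), potential σ (cir R θ) = 2 * Real.pi * sphEnergy 2 R := by
    have e : ∀ θ ∈ uIcc (0 : ℝ) (2 * Real.pi), potential σ (cir R θ) = sphEnergy 2 R :=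
      fun θ _ => hpot _ (cir_norm hR θ)
    rw [intervalIntegral.integral_congr e, intervalIntegral.integral_const, smul_eq_mul, sub_zero]
  have h2 : ∫ θ in (0 : ℝ)..(2 * Real.pi), potential σ (cir R θ) = 4 * J := by
    rw [intervalIntegral.integral_of_le (by positivity)]
    unfold potential
    rw [integral_integral_swap hint]
    have e : ∀ᵐ y ∂σ, ∫ θ in Ioc 0 (2 * Real.pi), Real.exp (-dist (cir R θ) y) = 4 * J := by
      filter_upwards [hn] with y hy
      rw [← intervalIntegral.integral_of_le (by positivity)]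
      exact kernel_int hR y hy
    rw [integral_congr_ae e, integral_const]
    simp
  rw [h1] at h2
  field_simp
  linarith

end Pool.Agent.Helper94.MM
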