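import Pool.Agent.Helper70.MM.Goals5

/-!
Project MM (MP_91ee6f_gt), packet MM5-INV: integrability of `1 / dist` on the sphere.
-/

open MeasureTheory Set Metric
open scoped ENNReal RealInnerProductSpace Topology Pointwise
open Pool.Agent.Results.MP_91ee6f_gt
open Pool.Agent.Helper70.MM

namespace Pool.Agent.Helper94.MM

/-- the cone over the cap -/
lemma cone_sub (n : ℕ) (e : En n) (ε : ℝ) (hε0 : 0 < ε) (hε1 : ε ≤ 1) :
    Ioo (0 : ℝ) 1 • ((↑) '' {θ : sphere (0 : En n) 1 | (θ : En n) ∈ closedBall e ε}) ⊆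
      ((1 - ε) • (Ioo (0 : ℝ) 1 •
        ((↑) '' {θ : sphere (0 : En n) 1 | (θ : En n) ∈ closedBall e ε}))) ∪
        closedBall e (2 * ε) := by
  rintro x ⟨t, ht, _, ⟨θ, hθ, rfl⟩, rfl⟩
  have hθ1 : ‖(θ : En n)‖ = 1 := by simpa using θ.2
  rw [mem_setOf_eq, mem_closedBall, dist_eq_norm] at hθ
  rcases lt_or_ge t (1 - ε) with h | h
  · left
    have h1 : 0 < 1 - ε := lt_trans ht.1 h
    refine ⟨(t / (1 - ε)) • (θ : En n), ⟨t / (1 - ε), ⟨div_pos ht.1 h1, ?_⟩, (θ : En n),
      ⟨θ, ?_, rfl⟩, rfl⟩, ?_⟩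
    · rw [div_lt_one h1]; exact h
    · rw [mem_setOf_eq, mem_closedBall, dist_eq_norm]; exact hθ
    · show (1 - ε) • (t / (1 - ε)) • (θ : En n) = t • (θ : En n)
      rw [smul_smul]
      congr 1
      field_simp
  · right
    show t • (θ : En n) ∈ closedBall e (2 * ε)
    rw [mem_closedBall, dist_eq_norm]
    have e1 : t • (θ : En n) - e = (t - 1) • (θ : En n) + ((θ : En n) - e) := by
      rw [sub_smul, one_smul]; abel
    rw [e1]
    refine (norm_add_le _ _).trans ?_
    rw [norm_smul, hθ1, mul_one, Real.norm_eq_abs]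
    have e2 : |t - 1| ≤ ε := abs_le.2 ⟨by linarith, by linarith [ht.2]⟩
    linarith

/-- the measure of a cap -/
theorem cap_le (n : ℕ) (hn : 3 ≤ n) (e : En n) (ε : ℝ) (hε0 : 0 < ε) (hε1 : ε ≤ 1) :
    (sphUnif n 1) (closedBall e ε) ≤ ENNReal.ofReal (2 ^ n * ε ^ 2) := by
  have hne : Nonempty (Fin n) := ⟨⟨0, by omega⟩⟩
  set A : Set (sphere (0 : En n) 1) := {θ | (θ : En n) ∈ closedBall e ε} with hA
  have hmeas : MeasurableSet A :=
    (isClosed_closedBall.measurableSet).preimage measurable_subtype_coe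
  have hdim : (Module.finrank ℝ (En n) : ℝ≥0∞) ≠ 0 := by
    rw [finrank_euclideanSpace_fin]
    exact_mod_cast (by omega : n ≠ 0)
  have hdim' : (Module.finrank ℝ (En n) : ℝ≥0∞) ≠ ⊤ := ENNReal.natCast_ne_top _
  have hb0 : (volume : Measure (En n)) (ball 0 1) ≠ 0 := (isOpen_ball.measure_pos _ (by simp)).ne'
  have hb1 : (volume : Measure (En n)) (ball 0 1) ≠ ⊤ := measure_ball_lt_top.ne
  set V : ℝ≥0∞ := (volume : Measure (En n)) (Ioo (0 : ℝ) 1 • ((↑) '' A)) with hV
  have h1 : (sphUnif n 1) (closedBall e ε) =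
      ((Module.finrank ℝ (En n) : ℝ≥0∞) * (volume : Measure (En n)) (ball 0 1))⁻¹ *
        ((Module.finrank ℝ (En n) : ℝ≥0∞) * V) := by
    unfold sphUnif
    rw [Measure.smul_apply, smul_eq_mul, Measure.toSphere_apply_univ,
      Measure.map_apply (by fun_prop) isClosed_closedBall.measurableSet]
    congr 1
    have e1 : (fun θ : sphere (0 : En n) 1 => (1 : ℝ) • (θ : En n)) ⁻¹' closedBall e ε = A := by
      ext θ
      simp [hA]
    rw [e1, Measure.toSphere_apply' _ hmeas]
  rw [h1, ← ENNReal.div_eq_inv_mul, ENNReal.mul_div_mul_left _ _ hdim hdim']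
  have hVb : V ≤ (volume : Measure (En n)) (ball 0 1) := by
    apply measure_mono
    rintro x ⟨t, ht, _, ⟨θ, _, rfl⟩, rfl⟩
    have hθ1 : ‖(θ : En n)‖ = 1 := by simpa using θ.2
    rw [mem_ball_zero_iff]
    show ‖t • (θ : En n)‖ < 1
    rw [norm_smul, hθ1, mul_one, Real.norm_eq_abs, abs_of_pos ht.1]
    exact ht.2
  have hVt : V ≠ ⊤ := ne_top_of_le_ne_top hb1 hVb
  have hfin : Module.finrank ℝ (En n) = n := finrank_euclideanSpace_fin
  have h2 : V ≤ ENNReal.ofReal ((1 - ε) ^ n) * V +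
      ENNReal.ofReal ((2 * ε) ^ n) * (volume : Measure (En n)) (ball 0 1) := by
    refine (measure_mono (cone_sub n e ε hε0 hε1)).trans ((measure_union_le _ _).trans ?_)
    rw [Measure.addHaar_smul, Measure.addHaar_closedBall _ _ (by positivity), hfin,
      abs_of_nonneg (pow_nonneg (by linarith) n)]
  set v : ℝ := V.toReal with hv
  set b : ℝ := ((volume : Measure (En n)) (ball 0 1)).toReal with hb
  have hbpos : 0 < b := ENNReal.toReal_pos hb0 hb1
  have hv0 : 0 ≤ v := ENNReal.toReal_nonneg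
  have h1e : 0 ≤ 1 - ε := by linarith
  have h3 : v ≤ (1 - ε) ^ n * v + (2 * ε) ^ n * b := by
    have h4 := ENNReal.toReal_mono (by
      apply ENNReal.add_ne_top.2
      exact ⟨ENNReal.mul_ne_top ENNReal.ofReal_ne_top hVt,
        ENNReal.mul_ne_top ENNReal.ofReal_ne_top hb1⟩) h2
    rw [ENNReal.toReal_add (ENNReal.mul_ne_top ENNReal.ofReal_ne_top hVt)
      (ENNReal.mul_ne_top ENNReal.ofReal_ne_top hb1), ENNReal.toReal_mul, ENNReal.toReal_mul,
      ENNReal.toReal_ofReal (pow_nonneg h1e n), ENNReal.toReal_ofReal (by positivity)] at h4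
    exact h4
  have h5 : (1 - ε) ^ n ≤ 1 - ε := by
    calc (1 - ε) ^ n ≤ (1 - ε) ^ 1 := pow_le_pow_of_le_one h1e (by linarith) (by omega)
      _ = 1 - ε := pow_one _
  have h6 : ε * v ≤ (2 * ε) ^ n * b := by
    have := mul_le_mul_of_nonneg_right h5 hv0
    linarith
  have h7 : (2 * ε) ^ n * b ≤ ε * (2 ^ n * ε ^ 2 * b) := by
    have h8 : ε ^ n ≤ ε ^ 3 := pow_le_pow_of_le_one hε0.le hε1 hn
    calc (2 * ε) ^ n * b = 2 ^ n * b * ε ^ n := by rw [mul_pow]; ring
      _ ≤ 2 ^ n * b * ε ^ 3 := mul_le_mul_of_nonneg_left h8 (by positivity)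
      _ = ε * (2 ^ n * ε ^ 2 * b) := by ring
  have h9 : v ≤ 2 ^ n * ε ^ 2 * b := le_of_mul_le_mul_left (h6.trans h7) hε0
  rw [ENNReal.div_le_iff hb0 hb1, ← ENNReal.ofReal_toReal hVt, ← ENNReal.ofReal_toReal hb1,
    ← ENNReal.ofReal_mul (by positivity)]
  exact ENNReal.ofReal_le_ofReal h9

/-- the inverse distance is bounded by a series -/
lemma inv_le_series (n : ℕ) (e θ : En n) :
    (ENNReal.ofReal (dist e θ))⁻¹ ≤ 1 + ∑' k : ℕ, (2 : ℝ≥0∞) ^ (k + 1) *
      (closedBall e ((1 / 2 : ℝ) ^ k)).indicator (fun _ => (1 : ℝ≥0∞)) θ := by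
  have hd0 : 0 ≤ dist e θ := dist_nonneg
  rcases lt_or_ge 1 (dist e θ) with h | h
  · refine le_trans ?_ le_self_add
    rw [ENNReal.inv_le_one]
    rw [← ENNReal.ofReal_one]
    exact ENNReal.ofReal_le_ofReal h.le
  · refine le_trans ?_ le_add_self
    rcases hd0.lt_or_eq with h0 | h0
    · obtain ⟨k, hk1, hk2⟩ := exists_nat_pow_near_of_lt_one h0 h (by norm_num : (0 : ℝ) < 1 / 2)
        (by norm_num)
      refine le_trans ?_ (ENNReal.le_tsum k)
      rw [indicator_of_mem (by rw [mem_closedBall, dist_comm]; exact hk2), mul_one]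
      have e1 : ((2 : ℝ≥0∞) ^ (k + 1)) = (ENNReal.ofReal ((1 / 2 : ℝ) ^ (k + 1)))⁻¹ := by
        rw [ENNReal.ofReal_pow (by norm_num), one_div, ENNReal.ofReal_inv_of_pos (by norm_num),
          ENNReal.inv_pow, inv_inv]
        norm_num
      rw [e1, ENNReal.inv_le_inv]
      exact ENNReal.ofReal_le_ofReal hk1.le
    · have e1 : ∀ k : ℕ, (1 : ℝ≥0∞) ≤ (2 : ℝ≥0∞) ^ (k + 1) *
          (closedBall e ((1 / 2 : ℝ) ^ k)).indicator (fun _ => (1 : ℝ≥0∞)) θ := by
        intro k
        rw [indicator_of_mem (by rw [mem_closedBall, dist_comm, ← h0]; positivity), mul_one]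
        exact one_le_pow₀ (by norm_num)
      have e2 : (∑' _k : ℕ, (1 : ℝ≥0∞)) = ⊤ := ENNReal.tsum_const_eq_top_of_ne_zero one_ne_zero
      have e3 := ENNReal.tsum_le_tsum e1
      rw [e2, top_le_iff] at e3
      rw [e3]
      exact le_top

/-- the integral over the unit sphere -/
theorem int_inv_le (n : ℕ) (hn : 3 ≤ n) (e : En n) :
    ∫⁻ θ, (ENNReal.ofReal (dist e θ))⁻¹ ∂(sphUnif n 1) ≤ 1 + ENNReal.ofReal (2 ^ n) * 4 := by
  have hprob : IsProbabilityMeasure (sphUnif n 1) := (fSPH1 n (by omega) 1).1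
  refine (lintegral_mono (inv_le_series n e)).trans ?_
  have hm : ∀ k : ℕ, Measurable (fun θ : En n => (2 : ℝ≥0∞) ^ (k + 1) *
      (closedBall e ((1 / 2 : ℝ) ^ k)).indicator (fun _ => (1 : ℝ≥0∞)) θ) := by
    intro k
    exact (measurable_const.indicator isClosed_closedBall.measurableSet).const_mul _
  rw [lintegral_add_left measurable_const, lintegral_const, measure_univ, mul_one,
    lintegral_tsum (fun k => (hm k).aemeasurable)]
  gcongr
  have h1 : ∀ k : ℕ, ∫⁻ θ, (2 : ℝ≥0∞) ^ (k + 1) *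
      (closedBall e ((1 / 2 : ℝ) ^ k)).indicator (fun _ => (1 : ℝ≥0∞)) θ ∂(sphUnif n 1) ≤
      ENNReal.ofReal (2 ^ n) * 2 * (2⁻¹ : ℝ≥0∞) ^ k := by
    intro k
    rw [lintegral_const_mul _ (measurable_const.indicator isClosed_closedBall.measurableSet),
      lintegral_indicator isClosed_closedBall.measurableSet, setLIntegral_const, one_mul]
    have h2 := cap_le n hn e ((1 / 2 : ℝ) ^ k) (by positivity)
      (pow_le_one₀ (by norm_num) (by norm_num))
    refine (mul_le_mul_right h2 _).trans ?_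
    have e1 : (2 : ℝ≥0∞) ^ (k + 1) = ENNReal.ofReal (2 ^ (k + 1)) := by
      rw [ENNReal.ofReal_pow (by norm_num)]
      norm_num
    have e2 : (2⁻¹ : ℝ≥0∞) ^ k = ENNReal.ofReal ((1 / 2) ^ k) := by
      rw [ENNReal.ofReal_pow (by norm_num), one_div, ENNReal.ofReal_inv_of_pos (by norm_num)]
      norm_num
    have e3 : (2 : ℝ≥0∞) = ENNReal.ofReal 2 := by norm_num
    rw [e1, e2, e3, ← ENNReal.ofReal_mul (by positivity), ← ENNReal.ofReal_mul (by positivity),
      ← ENNReal.ofReal_mul (by positivity)]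
    apply ENNReal.ofReal_le_ofReal
    apply le_of_eq
    have e4 : (2 : ℝ) ^ k * (1 / 2) ^ k = 1 := by
      rw [← mul_pow]; norm_num
    calc (2 : ℝ) ^ (k + 1) * (2 ^ n * ((1 / 2) ^ k) ^ 2)
        = (2 ^ k * (1 / 2) ^ k) * (2 ^ n * 2 * (1 / 2) ^ k) := by rw [pow_succ]; ring
      _ = 2 ^ n * 2 * (1 / 2) ^ k := by rw [e4, one_mul]
  refine (ENNReal.tsum_le_tsum h1).trans ?_
  rw [ENNReal.tsum_mul_left, ENNReal.tsum_geometric, ENNReal.one_sub_inv_two, inv_inv, mul_assoc]
  apply le_of_eq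
  norm_num

/-- the distance in terms of the unit vectors -/
lemma dist_lower (n : ℕ) (e θ : En n) (he : ‖e‖ = 1) (hθ : ‖θ‖ = 1) (s r : ℝ) (hs : 0 ≤ s)
    (hr : 0 ≤ r) (hm : 0 < max r s) :
    ENNReal.ofReal (1 / dist (r • e) (s • θ)) ≤
      ENNReal.ofReal (2 / max r s) * (1 + (ENNReal.ofReal (dist e θ))⁻¹) := by
  set τ : ℝ := max r s with hτ
  have hrτ : r ≤ τ := le_max_left _ _
  have hsτ : s ≤ τ := le_max_right _ _
  set D : ℝ := dist (r • e) (s • θ) with hD
  have hD0 : 0 ≤ D := dist_nonneg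
  have hd0 : 0 ≤ dist e θ := dist_nonneg
  have e1 : D ^ 2 = (r - s) ^ 2 + r * s * dist e θ ^ 2 := by
    rw [hD, dist_eq_norm, dist_eq_norm, norm_sub_sq_real, norm_sub_sq_real, norm_smul, norm_smul,
      he, hθ, inner_smul_left, inner_smul_right, Real.norm_eq_abs, Real.norm_eq_abs,
      abs_of_nonneg hr, abs_of_nonneg hs]
    simp only [conj_trivial]
    ring
  have hcase : τ / 2 ≤ D ∨ τ / 2 * dist e θ ≤ D := by
    by_cases h1 : τ / 2 ≤ |r - s|
    · left
      have h2 : |r - s| ^ 2 ≤ D ^ 2 := by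
        rw [e1, sq_abs]
        have : 0 ≤ r * s * dist e θ ^ 2 := by positivity
        linarith
      exact h1.trans ((sq_le_sq₀ (abs_nonneg _) hD0).1 h2)
    · right
      push Not at h1
      have h2 : τ ^ 2 / 4 ≤ r * s := by
        rw [abs_lt] at h1
        rcases le_total r s with h3 | h3
        · have : τ = s := max_eq_right h3
          rw [this] at h1 ⊢
          nlinarith
        · have : τ = r := max_eq_left h3
          rw [this] at h1 ⊢
          nlinarith
      have h3 : (τ / 2 * dist e θ) ^ 2 ≤ D ^ 2 := by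
        rw [e1]
        have h4 : (τ / 2 * dist e θ) ^ 2 = τ ^ 2 / 4 * dist e θ ^ 2 := by ring
        rw [h4]
        have h5 : τ ^ 2 / 4 * dist e θ ^ 2 ≤ r * s * dist e θ ^ 2 :=
          mul_le_mul_of_nonneg_right h2 (by positivity)
        have h6 := sq_nonneg (r - s)
        linarith
      exact (sq_le_sq₀ (by positivity) hD0).1 h3
  rcases hcase with h | h
  · have h1 : 1 / D ≤ 2 / τ := by
      rw [div_le_div_iff₀ (by linarith) hm]
      linarith
    refine (ENNReal.ofReal_le_ofReal h1).trans ?_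
    exact le_mul_of_one_le_right zero_le le_self_add
  · rcases hd0.lt_or_eq with h0 | h0
    · have h1 : 1 / D ≤ 2 / τ * (dist e θ)⁻¹ := by
        have h2 : 0 < τ / 2 * dist e θ := by positivity
        have h3 : 1 / D ≤ 1 / (τ / 2 * dist e θ) := one_div_le_one_div_of_le h2 h
        refine h3.trans (le_of_eq ?_)
        field_simp
      refine (ENNReal.ofReal_le_ofReal h1).trans ?_
      rw [ENNReal.ofReal_mul (by positivity), ENNReal.ofReal_inv_of_pos h0]
      gcongr
      exact le_add_self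
    · rw [← h0]
      have h1 : (0 : ℝ) < 2 / τ := by positivity
      rw [ENNReal.ofReal_zero, ENNReal.inv_zero, add_top, ENNReal.mul_top]
      · exact le_top
      · exact (ENNReal.ofReal_pos.2 h1).ne'

theorem inv : INV := by
  intro n hn
  refine ⟨2 * (2 + 2 ^ n * 4), by positivity, ?_⟩
  intro e s r he hs hr hm
  have hprob : IsProbabilityMeasure (sphUnif n 1) := (fSPH1 n (by omega) 1).1
  have hsph : sphUnif n s = (sphUnif n 1).map (fun x => s • x) := by
    rw [(fSPH2 n 1).2 s, mul_one]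
  have hτ : 0 < 2 / max r s := by positivity
  have hmeas : Measurable (fun y : En n => 1 / dist (r • e) y) := by fun_prop
  have hlin : ∫⁻ y, ENNReal.ofReal (1 / dist (r • e) y) ∂(sphUnif n s) ≤
      ENNReal.ofReal (2 * (2 + 2 ^ n * 4) / max r s) := by
    rw [hsph, lintegral_map hmeas.ennreal_ofReal (by fun_prop)]
    have h1 : ∫⁻ θ, ENNReal.ofReal (1 / dist (r • e) (s • θ)) ∂(sphUnif n 1) ≤
        ∫⁻ θ, ENNReal.ofReal (2 / max r s) * (1 + (ENNReal.ofReal (dist e θ))⁻¹)
          ∂(sphUnif n 1) := by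
      apply lintegral_mono_ae
      filter_upwards [(fSPH1 n (by omega) 1).2.1 zero_le_one] with θ hθ
      exact dist_lower n e θ he hθ s r hs hr hm
    refine h1.trans ?_
    rw [lintegral_const_mul _ (by fun_prop), lintegral_add_left measurable_const, lintegral_const,
      measure_univ, mul_one]
    calc ENNReal.ofReal (2 / max r s) *
          (1 + ∫⁻ θ, (ENNReal.ofReal (dist e θ))⁻¹ ∂(sphUnif n 1))
        ≤ ENNReal.ofReal (2 / max r s) * (1 + (1 + ENNReal.ofReal (2 ^ n) * 4)) := by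
          gcongr
          exact int_inv_le n hn e
      _ = ENNReal.ofReal (2 * (2 + 2 ^ n * 4) / max r s) := by
          have e1 : (4 : ℝ≥0∞) = ENNReal.ofReal 4 := by norm_num
          rw [e1, ← ENNReal.ofReal_mul (by positivity), ← ENNReal.ofReal_one,
            ← ENNReal.ofReal_add (by norm_num) (by positivity),
            ← ENNReal.ofReal_add (by norm_num) (by positivity),
            ← ENNReal.ofReal_mul (by positivity)]
          congr 1
          ring
  have hnn : ∀ y : En n, 0 ≤ 1 / dist (r • e) y := fun y => by positivity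
  constructor
  · refine ⟨hmeas.aestronglyMeasurable, ?_⟩
    rw [hasFiniteIntegral_iff_ofReal (Filter.Eventually.of_forall hnn)]
    exact lt_of_le_of_lt hlin ENNReal.ofReal_lt_top
  · rw [integral_eq_lintegral_of_nonneg_ae (Filter.Eventually.of_forall hnn)
      hmeas.aestronglyMeasurable]
    refine ENNReal.toReal_le_of_le_ofReal (by positivity) hlin

end Pool.Agent.Helper94.MM
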